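import Pool.Agent.R703.FM.Sep
import Pool.Agent.W99.UF.TameN
import Pool.Agent.W880.UF2.Wild

/-!
# Tame ramification and eigencharacters over general number fields
-/

set_option autoImplicit false

namespace Pool.Agent.R703.FM

open NumberField IsLocalRing Pool.Agent.W569.FM Pool.Agent.W569.UF Pool.Agent.Y802.GC

/-- the tame relation over a general base field -/
theorem tame (F : Type) [Field F] [NumberField F] {p l q : ℕ} (hp : p.Prime) (hl : l.Prime)
    (hpl : p ≠ l) (hq : 1 ≤ q) (H : Subgroup (GF F)) [hH : H.Normal]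
    (hHo : IsOpen (H : Set (GF F))) (E : Type) [Group E] (hE : IsPGroup p E) (f : H →* E)
    (hopen : IsOpen (f.ker : Set H)) (P : Ideal (OO F)) (hP : P.IsMaximal)
    (hlP : (l : OO F) ∈ P) (τ : H) (σ : GF F) (hτ : InInertia P (τ : GF F))
    (hσ : FrobAt q P σ) :
    f (MulAut.conjNormal σ τ) = f τ ^ q := by
  have h1 := Pool.Agent.W99.UF.gen F p l q hp hl hpl ?_ H hHo E hE f hopen P hP hlP τ σ hτ hσ
  · rw [← h1]
    congr 1
  · intro L _ _ _ _ P hP h0 hlP τ σ hτ hσ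
    have hmax : P.IsMaximal := hP.isMaximal h0
    have : FaithfulSMul Gal(L/F) (𝓞 L) := by
      refine ⟨?_⟩
      intro a b hab
      ext x
      obtain ⟨y, z, hz, rfl⟩ := IsFractionRing.div_surjective (A := 𝓞 L) x
      have ey : a (algebraMap (𝓞 L) L y) = b (algebraMap (𝓞 L) L y) :=
        congrArg (algebraMap (𝓞 L) L) (hab y)
      have ez : a (algebraMap (𝓞 L) L z) = b (algebraMap (𝓞 L) L z) :=
        congrArg (algebraMap (𝓞 L) L) (hab z)
      rw [map_div₀, map_div₀, ey, ez]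
    have : Finite Gal(L/F) := by
      have : FiniteDimensional F L := by
        have : FiniteDimensional ℚ L := inferInstance
        exact FiniteDimensional.right ℚ F L
      infer_instance
    exact Pool.Agent.W880.UF2.wild_gen hmax h0 hl hlP (by omega) hτ hσ

/-- every maximal ideal contains a prime number -/
theorem exists_prime_mem {F : Type} [Field F] [CharZero F] (P : Ideal (OO F)) (hP : P.IsMaximal) :
    ∃ l : ℕ, l.Prime ∧ (l : OO F) ∈ P := by
  have hPp := hP.isPrime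
  have h1 : (P.comap (algebraMap ℤ (OO F))).IsMaximal :=
    Ideal.isMaximal_comap_of_isIntegral_of_isMaximal P
  obtain ⟨g, hg⟩ := (IsPrincipalIdealRing.principal (P.comap (algebraMap ℤ (OO F)))).principal
  have hg0 : g ≠ 0 := by
    rintro rfl
    have h2 : P.comap (algebraMap ℤ (OO F)) = ⊥ := by
      rw [hg]
      simp
    rw [h2] at h1
    exact Ring.ne_bot_of_isMaximal_of_not_isField h1 Int.not_isField rfl
  have hgm : g ∈ P.comap (algebraMap ℤ (OO F)) := by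
    rw [hg]
    exact Submodule.mem_span_singleton_self g
  have hgp : (P.comap (algebraMap ℤ (OO F))).IsPrime := h1.isPrime
  have hpr : Prime g := by
    have h3 : (Ideal.span {g}).IsPrime := by
      have h4 : P.comap (algebraMap ℤ (OO F)) = Ideal.span {g} := hg
      rw [← h4]
      exact hgp
    exact (Ideal.span_singleton_prime hg0).1 h3
  refine ⟨g.natAbs, Int.prime_iff_natAbs_prime.1 hpr, ?_⟩
  have h5 : (algebraMap ℤ (OO F)) g ∈ P := hgm
  have h6 : ((g.natAbs : ℤ) : OO F) ∈ P := by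
    rcases Int.natAbs_eq g with h | h
    · rw [← h]
      simpa using h5
    · have h7 : ((g.natAbs : ℤ)) = -g := by omega
      rw [h7, Int.cast_neg]
      exact P.neg_mem (by simpa using h5)
  simpa using h6

/-- `χ` occurs in the unramified extensions -/
def Occ {F : Type} [Field F] (p : ℕ) {D : Type} [Group D] (π : GF F →* D) (H : Subgroup (GF F))
    [H.Normal] (χ : D →* ZMod p) : Prop :=
  ∃ f : H →* Multiplicative (ZMod p), IsOpen (f.ker : Set H) ∧
    (∀ P : Ideal (OO F), P.IsMaximal → ∀ τ : H, InInertia P (τ : GF F) → f τ = 1) ∧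
    (∃ g, f g ≠ 1) ∧ ∀ (σ : GF F) (g : H),
      Multiplicative.toAdd (f (MulAut.conjNormal σ g)) = χ (π σ) * Multiplicative.toAdd (f g)

/-- `χ` is the cyclotomic character on a decomposition group at a prime in `S` -/
def Loc {F : Type} [Field F] (p : ℕ) {D : Type} [Group D] (π : GF F →* D)
    (S : Set (Ideal (𝓞 F))) (χ : D →* ZMod p) : Prop :=
  ∃ P : Ideal (OO F), P.IsMaximal ∧ P.comap (algebraMap (𝓞 F) (OO F)) ∈ S ∧
    ∀ (σ : GF F) (Q : ℕ), FrobAt Q P σ → χ (π σ) = Q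

theorem one_le_of_frobAt {F : Type} [Field F] {P : Ideal (OO F)} (hP : P.IsMaximal) {σ : GF F}
    {Q : ℕ} (h : FrobAt Q P σ) : 1 ≤ Q := by
  rcases Nat.eq_zero_or_pos Q with h0 | h0
  · exfalso
    subst h0
    have h1 := h 0
    rw [smul_zero, pow_zero, zero_sub, P.neg_mem_iff] at h1
    exact hP.ne_top ((Ideal.eq_top_iff_one P).2 h1)
  · exact h0

section

variable {F : Type} [Field F] [NumberField F] {p : ℕ} [Fact p.Prime] {S : Set (Ideal (𝓞 F))}
  {H : Subgroup (GF F)} [hH : H.Normal]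

theorem prime_ne (hS : ∀ 𝔮 ∈ S, (p : 𝓞 F) ∉ 𝔮) {P : Ideal (OO F)} (hP : P.IsMaximal)
    (hPS : P.comap (algebraMap (𝓞 F) (OO F)) ∈ S) :
    ∃ l : ℕ, l.Prime ∧ p ≠ l ∧ (l : OO F) ∈ P := by
  obtain ⟨l, hl, hlP⟩ := exists_prime_mem P hP
  refine ⟨l, hl, ?_, hlP⟩
  rintro rfl
  refine hS _ hPS ?_
  rw [Ideal.mem_comap, map_natCast]
  exact hlP

theorem occ_or_loc (hS : ∀ 𝔮 ∈ S, (p : 𝓞 F) ∉ 𝔮) (hHo : IsOpen (H : Set (GF F))) {D : Type}
    [Group D] (π : GF F →* D) (χ : D →* ZMod p) (f : H →* Multiplicative (ZMod p))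
    (hf : Adm p (UrN S H) f) (hf1 : ∃ g, f g ≠ 1)
    (heq : ∀ (σ : GF F) (g : H), Multiplicative.toAdd (f (MulAut.conjNormal σ g)) =
      χ (π σ) * Multiplicative.toAdd (f g)) : Occ p π H χ ∨ Loc p π S χ := by
  have hp : p.Prime := Fact.out
  by_cases hu : ∀ P : Ideal (OO F), P.IsMaximal → ∀ τ : H, InInertia P (τ : GF F) → f τ = 1
  · exact Or.inl ⟨f, hf.isOpen, hu, hf1, heq⟩
  · right
    push Not at hu
    obtain ⟨P, hP, τ, hτ, hfτ⟩ := hu
    have hPS : P.comap (algebraMap (𝓞 F) (OO F)) ∈ S := by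
      by_contra hPS
      exact hfτ (hf.ur τ ⟨P, hP, hPS, hτ⟩)
    refine ⟨P, hP, hPS, fun σ Q hσ => ?_⟩
    obtain ⟨l, hl, hpl, hlP⟩ := prime_ne hS hP hPS
    have hE : IsPGroup p (Multiplicative (ZMod p)) := by
      apply IsPGroup.of_card (n := 1)
      rw [Nat.card_congr Multiplicative.toAdd, Nat.card_zmod, pow_one]
    have h1 := tame F hp hl hpl (one_le_of_frobAt hP hσ) H hHo _ hE f hf.isOpen P hP hlP τ σ hτ hσ
    have h2 := heq σ τ
    rw [h1, toAdd_pow, nsmul_eq_mul] at h2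
    have h3 : Multiplicative.toAdd (f τ) ≠ 0 := fun h => hfτ (Multiplicative.toAdd.injective h)
    exact (mul_right_cancel₀ h3 h2).symm

theorem exp_of (hS : ∀ 𝔮 ∈ S, (p : 𝓞 F) ∉ 𝔮) (hHo : IsOpen (H : Set (GF F))) {e₁ e₂ : ℕ}
    (h1 : ∀ (E : Type) [CommGroup E] [Finite E], IsPGroup p E → ∀ f : H →* E,
      IsOpen (f.ker : Set H) → (∀ P : Ideal (OO F), P.IsMaximal →
        ∀ τ : H, InInertia P (τ : GF F) → f τ = 1) → ∀ g, f g ^ (p ^ e₁) = 1)
    (h2 : ∀ P : Ideal (OO F), P.IsMaximal → P.comap (algebraMap (𝓞 F) (OO F)) ∈ S →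
      ∃ σ ∈ H, ∃ Q : ℕ, FrobAt Q P σ ∧ ¬ p ^ (e₂ + 1) ∣ Q - 1)
    (E : Type) [CommGroup E] [Finite E] (hE : IsPGroup p E) (f : H →* E)
    (hf : IsOpen (f.ker : Set H)) (hu : ∀ τ ∈ UrN S H, f τ = 1) (g : H) :
    f g ^ (p ^ (e₁ + e₂)) = 1 := by
  have hp : p.Prime := Fact.out
  have h3 := h1 E hE ((powMonoidHom (p ^ e₂)).comp f) ?_ ?_ g
  · have h4 : ((powMonoidHom (p ^ e₂)).comp f) g = f g ^ (p ^ e₂) := rfl
    rw [h4, ← pow_mul, ← pow_add, add_comm] at h3
    exact h3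
  · apply Subgroup.isOpen_mono (H₁ := f.ker) _ hf
    intro x hx
    have h2 : f x = 1 := hx
    show f x ^ p ^ e₂ = 1
    rw [h2, one_pow]
  · intro P hP τ hτ
    show f τ ^ p ^ e₂ = 1
    by_cases hPS : P.comap (algebraMap (𝓞 F) (OO F)) ∈ S
    · obtain ⟨σ, hσH, Q, hσ, hQ⟩ := h2 P hP hPS
      obtain ⟨l, hl, hpl, hlP⟩ := prime_ne hS hP hPS
      have hQ1 := one_le_of_frobAt hP hσ
      have h4 := tame F hp hl hpl hQ1 H hHo _ hE f hf P hP hlP τ σ hτ hσ
      have h5 : MulAut.conjNormal σ τ = (⟨σ, hσH⟩ : H) * τ * (⟨σ, hσH⟩ : H)⁻¹ :=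
        conj_mem' (⟨σ, hσH⟩ : H) τ
      rw [h5, map_mul, map_mul, map_inv, mul_comm (f ⟨σ, hσH⟩), mul_inv_cancel_right] at h4
      have h6 : f τ ^ (Q - 1) = 1 := by
        have h7 : f τ ^ (Q - 1) * f τ = 1 * f τ := by
          rw [← pow_succ, Nat.sub_add_cancel hQ1, ← h4, one_mul]
        exact mul_right_cancel h7
      obtain ⟨a, ha⟩ := hE (f τ)
      obtain ⟨b, -, hb⟩ := (Nat.dvd_prime_pow hp).1 (orderOf_dvd_of_pow_eq_one ha)
      have h8 : b ≤ e₂ := by
        by_contra hbe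
        refine hQ ((pow_dvd_pow p (show e₂ + 1 ≤ b by omega)).trans ?_)
        rw [← hb]
        exact orderOf_dvd_of_pow_eq_one h6
      rw [← orderOf_dvd_iff_pow_eq_one, hb]
      exact pow_dvd_pow p h8
    · rw [hu τ ⟨P, hP, hPS, hτ⟩, one_pow]

end

end Pool.Agent.R703.FM
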