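import Pool.Agent.Y802.GC.NF
import Pool.Agent.W569.FM.Char
import Pool.Agent.W605.FM.Four

/-!
# Separation from eigencharacters

For an abelian quotient of exponent dividing `p - 1` the separation condition of the graded
criterion is a condition on the characters which occur.
-/

set_option autoImplicit false

namespace Pool.Agent.R703.FM

open Pool.Agent.W569.FM Pool.Agent.Y802.GC

variable {p : ℕ} [Fact p.Prime] {G : Type} [Group G] [TopologicalSpace G] [IsTopologicalGroup G]
  {H : Subgroup G} [hH : H.Normal] {D : Type} [CommGroup D] [Finite D]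

theorem conj_mul' (σ τ : G) (h : H) :
    MulAut.conjNormal (σ * τ) h = MulAut.conjNormal σ (MulAut.conjNormal τ h) := by
  rw [map_mul]
  rfl

theorem conj_mem' (σ h : H) : MulAut.conjNormal (σ : G) h = σ * h * σ⁻¹ := by
  apply Subtype.ext
  rw [MulAut.conjNormal_apply]
  rfl

/-- characters are class functions -/
theorem class_eq {E : Type} [CommGroup E] (f : H →* E) {D : Type} [Group D] (π : G →* D)
    (hHπ : ∀ σ, σ ∈ H ↔ π σ = 1) {σ σ' : G} (hσ : π σ = π σ') (g : H) :
    f (MulAut.conjNormal σ' g) = f (MulAut.conjNormal σ g) := by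
  have hh : σ' * σ⁻¹ ∈ H := by
    rw [hHπ, map_mul, map_inv, hσ, mul_inv_cancel]
  have h1 : σ' = ((⟨σ' * σ⁻¹, hh⟩ : H) : G) * σ := by
    show σ' = (σ' * σ⁻¹) * σ
    group
  conv_lhs => rw [h1]
  rw [conj_mul', conj_mem', map_mul, map_mul, map_inv, mul_comm (f _), mul_inv_cancel_right]

/-- the function on `D` attached to a character and an element -/
def phi' (s : D → G) (f : H →* Multiplicative (ZMod p)) (g : H) : D → ZMod p :=
  fun δ => Multiplicative.toAdd (f (MulAut.conjNormal (s δ) g))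

theorem phi'_mul (s : D → G) (f : H →* Multiplicative (ZMod p)) (g g' : H) :
    phi' s f (g * g') = phi' s f g + phi' s f g' := by
  funext δ
  show Multiplicative.toAdd (f (MulAut.conjNormal (s δ) (g * g'))) = _
  rw [map_mul, map_mul, toAdd_mul]
  rfl

theorem phi'_conj (π : G →* D) (hHπ : ∀ σ, σ ∈ H ↔ π σ = 1) (s : D → G) (hs : ∀ d, π (s d) = d)
    (f : H →* Multiplicative (ZMod p)) (σ : G) (g : H) :
    phi' s f (MulAut.conjNormal σ g) = fun δ => phi' s f g (δ * π σ) := by
  funext δ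
  show Multiplicative.toAdd (f (MulAut.conjNormal (s δ) (MulAut.conjNormal σ g))) =
    Multiplicative.toAdd (f (MulAut.conjNormal (s (δ * π σ)) g))
  rw [← conj_mul', class_eq f π hHπ (σ := s δ * σ) (σ' := s (δ * π σ)) (by
    rw [hs, map_mul, hs]) g]

/-- the component of a character which belongs to `χ` -/
noncomputable def comp' (hD : ∀ d : D, d ^ (p - 1) = 1) (s : D → G)
    (f : H →* Multiplicative (ZMod p)) (χ : D →* ZMod p) : H →* Multiplicative (ZMod p) where
  toFun g := Multiplicative.ofAdd (co Pool.Agent.W605.FM.Four.main hD χ (phi' s f g))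
  map_one' := by
    have h1 : phi' s f 1 = 0 := by
      have := phi'_mul s f 1 1
      rw [mul_one] at this
      exact left_eq_add.1 this
    rw [h1, map_zero, ofAdd_zero]
  map_mul' g g' := by rw [phi'_mul, map_add, ofAdd_add]

theorem comp'_apply (hD : ∀ d : D, d ^ (p - 1) = 1) (s : D → G)
    (f : H →* Multiplicative (ZMod p)) (χ : D →* ZMod p) (g : H) :
    Multiplicative.toAdd (comp' hD s f χ g) =
      co Pool.Agent.W605.FM.Four.main hD χ (phi' s f g) := rfl

theorem comp'_adm (hD : ∀ d : D, d ^ (p - 1) = 1) (s : D → G) {Ur : Set H}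
    (hconj : ∀ (g : G) (τ : H), τ ∈ Ur → MulAut.conjNormal g τ ∈ Ur)
    (f : H →* Multiplicative (ZMod p)) (hf : Adm p Ur f) (χ : D →* ZMod p) :
    Adm p Ur (comp' hD s f χ) := by
  constructor
  · apply Subgroup.isOpen_of_mem_nhds _ (g := (1 : H))
    have h1 : ∀ δ : D, ∀ᶠ g in nhds (1 : H), f (MulAut.conjNormal (s δ) g) = 1 := by
      intro δ
      have h3 : ∀ᶠ h in nhds (1 : H), f h = 1 := hf.isOpen.mem_nhds (map_one f)
      have h4 : Filter.Tendsto (fun g : H => MulAut.conjNormal (s δ) g) (nhds 1) (nhds 1) := by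
        have := (Pool.Agent.W569.UF.continuous_conjNormal (H := H) (s δ)).tendsto 1
        rwa [map_one] at this
      exact h4.eventually h3
    filter_upwards [Filter.eventually_all.2 h1] with g hg
    show comp' hD s f χ g = 1
    apply Multiplicative.toAdd.injective
    rw [comp'_apply, toAdd_one]
    have h2 : phi' s f g = 0 := by
      funext δ
      show Multiplicative.toAdd (f (MulAut.conjNormal (s δ) g)) = 0
      rw [hg δ, toAdd_one]
    rw [h2, map_zero]
  · intro τ hτ
    apply Multiplicative.toAdd.injective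
    rw [comp'_apply, toAdd_one]
    have h2 : phi' s f τ = 0 := by
      funext δ
      show Multiplicative.toAdd (f (MulAut.conjNormal (s δ) τ)) = 0
      rw [hf.ur _ (hconj _ _ hτ), toAdd_one]
    rw [h2, map_zero]

theorem comp'_conj (hD : ∀ d : D, d ^ (p - 1) = 1) (π : G →* D)
    (hHπ : ∀ σ, σ ∈ H ↔ π σ = 1) (s : D → G) (hs : ∀ d, π (s d) = d)
    (f : H →* Multiplicative (ZMod p)) (χ : D →* ZMod p) (σ : G) (g : H) :
    Multiplicative.toAdd (comp' hD s f χ (MulAut.conjNormal σ g)) =
      χ (π σ) * Multiplicative.toAdd (comp' hD s f χ g) := by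
  rw [comp'_apply, comp'_apply, phi'_conj π hHπ s hs, co_translate]

/-- a linear functional on functions on `D` as an integral combination -/
theorem exists_comb {G : Type} {p : ℕ} [NeZero p] {D : Type} [Finite D] (s : D → G)
    (L : (D → ZMod p) →ₗ[ZMod p] ZMod p) :
    ∃ a : G →₀ ℤ, ∀ h : G → ZMod p,
      ∑ σ ∈ a.support, (a σ : ZMod p) * h σ = L fun δ => h (s δ) := by
  classical
  have := Fintype.ofFinite D
  refine ⟨∑ δ : D, Finsupp.single (s δ)
    (((L fun j => if δ = j then 1 else 0).val : ℕ) : ℤ), fun h => ?_⟩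
  set a : G →₀ ℤ := ∑ δ : D, Finsupp.single (s δ)
    (((L fun j => if δ = j then 1 else 0).val : ℕ) : ℤ) with ha
  have h1 : ∑ σ ∈ a.support, (a σ : ZMod p) * h σ = a.sum fun σ c => (c : ZMod p) * h σ := rfl
  rw [h1, ha, ← Finsupp.sum_finsetSum_index (fun σ => by rw [Int.cast_zero, zero_mul])
    (fun σ b c => by rw [Int.cast_add, add_mul]), LinearMap.pi_apply_eq_sum_univ]
  refine Finset.sum_congr rfl fun δ _ => ?_
  rw [Finsupp.sum_single_index (by rw [Int.cast_zero, zero_mul]), Int.cast_natCast,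
    ZMod.natCast_val, ZMod.cast_id', id, smul_eq_mul, mul_comm]

theorem sepa_of (hD : ∀ d : D, d ^ (p - 1) = 1) (π : G →* D) (hπ : Function.Surjective π)
    (hHπ : ∀ σ, σ ∈ H ↔ π σ = 1) {Ur : Set H}
    (hconj : ∀ (g : G) (τ : H), τ ∈ Ur → MulAut.conjNormal g τ ∈ Ur)
    (X : Set (D →* ZMod p))
    (hocc : ∀ (χ : D →* ZMod p) (f : H →* Multiplicative (ZMod p)), Adm p Ur f →
      (∃ g, f g ≠ 1) → (∀ (σ : G) (g : H), Multiplicative.toAdd (f (MulAut.conjNormal σ g)) =
        χ (π σ) * Multiplicative.toAdd (f g)) → χ ∈ X)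
    (i : ℕ) (hX : ∀ ψ : Fin i → (D →* ZMod p), (∀ j, ψ j ∈ X) → ∏ j, ψ j ∉ X) :
    Sepa H p Ur i := by
  classical
  choose s hs using hπ
  have : Finite (D →* ZMod p) := DFunLike.finite _
  have : Fintype (D →* ZMod p) := Fintype.ofFinite _
  have hpp : p.Prime := Fact.out
  have : NeZero p := ⟨hpp.ne_zero⟩
  have hco : ∀ χ : D →* ZMod p, χ ∉ X → ∀ f : H →* Multiplicative (ZMod p), Adm p Ur f →
      ∀ g, co Pool.Agent.W605.FM.Four.main hD χ (phi' s f g) = 0 := by
    intro χ hχ f hf g
    by_contra hne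
    refine hχ (hocc χ (comp' hD s f χ) (comp'_adm hD s hconj f hf χ) ⟨g, fun h => hne ?_⟩
      fun σ g => comp'_conj hD π hHπ s hs f χ σ g)
    rw [← comp'_apply, h, toAdd_one]
  let Z : Finset (D →* ZMod p) := Finset.univ.filter fun χ => ∃ ψ : Fin i → (D →* ZMod p),
    (∀ j, ψ j ∈ X) ∧ ∏ j, ψ j = χ
  let L : (D → ZMod p) →ₗ[ZMod p] ZMod p :=
    ∑ χ ∈ Z, co Pool.Agent.W605.FM.Four.main hD χ
  have hL : ∀ u, L u = ∑ χ ∈ Z, co Pool.Agent.W605.FM.Four.main hD χ u := fun u => by
    rw [LinearMap.sum_apply]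
  obtain ⟨a, ha⟩ := exists_comb s L
  refine ⟨a, fun f hf g => ?_, fun f hf g => ?_⟩
  · rw [ha fun σ => Multiplicative.toAdd (f (MulAut.conjNormal σ g)), hL]
    refine Finset.sum_eq_zero fun χ hχ => ?_
    obtain ⟨ψ, hψ, rfl⟩ := (Finset.mem_filter.1 hχ).2
    exact hco _ (hX ψ hψ) f hf g
  · rw [ha fun σ => ∏ j, Multiplicative.toAdd (f j (MulAut.conjNormal σ (g j)))]
    have h1 : (fun δ => ∏ j, Multiplicative.toAdd (f j (MulAut.conjNormal (s δ) (g j)))) =
        ∏ j, phi' s (f j) (g j) := by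
      funext δ
      rw [Finset.prod_apply]
      rfl
    have h2 : ∀ j, Multiplicative.toAdd (f j (g j)) = phi' s (f j) (g j) 1 := by
      intro j
      show _ = Multiplicative.toAdd (f j (MulAut.conjNormal (s 1) (g j)))
      rw [class_eq (f j) π hHπ (σ := 1) (σ' := s 1) (by rw [hs, map_one]) (g j), map_one,
        MulAut.one_apply]
    rw [h1, Finset.prod_congr rfl fun j _ => h2 j, ← Finset.prod_apply]
    have h3 : ∏ j, phi' s (f j) (g j) = ∑ w : Fin i → (D →* ZMod p),
        (∏ j, co Pool.Agent.W605.FM.Four.main hD (w j) (phi' s (f j) (g j))) •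
          ((∏ j, w j : D →* ZMod p) : D → ZMod p) := by
      rw [Finset.prod_congr rfl fun j _ => expand Pool.Agent.W605.FM.Four.main hD _,
        Finset.prod_univ_sum, Fintype.piFinset_univ]
      refine Finset.sum_congr rfl fun w _ => ?_
      rw [Finset.prod_smul]
      congr 1
      funext δ
      rw [Finset.prod_apply, MonoidHom.finsetProd_apply]
    rw [h3, map_sum, Finset.sum_apply]
    refine Finset.sum_congr rfl fun w _ => ?_
    rw [map_smul, Pi.smul_apply, map_one]
    by_cases hw : ∀ j, w j ∈ X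
    · congr 1
      rw [hL]
      have hmem : ∏ j, w j ∈ Z := Finset.mem_filter.2 ⟨Finset.mem_univ _, w, hw, rfl⟩
      rw [Finset.sum_eq_single_of_mem _ hmem]
      · rw [co_char, if_pos rfl]
      · intro χ _ hχ
        rw [co_char, if_neg fun h => hχ h.symm]
    · push Not at hw
      obtain ⟨j, hj⟩ := hw
      rw [Finset.prod_eq_zero (Finset.mem_univ j) (hco _ hj (f j) (hf j) (g j)), zero_smul,
        zero_smul]

end Pool.Agent.R703.FM
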